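import Mathlib
import Pool.Agent.Helper88.Weyl.Def

/-!
Project ST (MP_37896c_gt): perimeter along iterated Steiner symmetrizations.
Definitions and exact statements (as Props) of all pieces.
-/

open MeasureTheory Set Metric Filter Topology
open scoped ENNReal NNReal RealInnerProductSpace

noncomputable section

namespace Pool.Agent.R748.ST

open Pool.Agent.Helper88.Weyl (En dvg perimeter)

/-! ### One dimension -/

/-- the symmetric decreasing rearrangement of a function on the line -/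
def star (g : ℝ → ℝ) (t : ℝ) : ℝ :=
  sSup {z | z = 0 ∨ (0 < z ∧ (∃ s, z ≤ g s) ∧ 2 * |t| ≤ (volume {s | z ≤ g s}).toReal)}

/-- nonnegative continuous functions on the line, supported in `[-R, R]` -/
structure Nice (R : ℝ) (g : ℝ → ℝ) : Prop where
  cont : Continuous g
  nonneg : ∀ s, 0 ≤ g s
  supp : ∀ s, R ≤ |s| → g s = 0

/-- A1: the level sets of `star g` are the symmetrized level sets of `g` -/
def A1 : Prop := ∀ (R : ℝ) (g : ℝ → ℝ), Nice R g → ∀ z, 0 < z → ∀ t,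
  (z ≤ star g t ↔ (∃ s, z ≤ g s) ∧ 2 * |t| ≤ (volume {s | z ≤ g s}).toReal)

/-- A2: elementary properties of `star g` -/
def A2 : Prop := ∀ (R : ℝ) (g : ℝ → ℝ), Nice R g →
  (∀ t, 0 ≤ star g t) ∧ (∀ s t, |s| ≤ |t| → star g t ≤ star g s) ∧
  (∀ t, R ≤ |t| → star g t = 0) ∧
  (∀ M, (∀ s, g s ≤ M) → ∀ t, star g t ≤ M) ∧
  (∀ z, 0 < z → volume {t | z ≤ star g t} = volume {s | z ≤ g s})

/-- A3: one-dimensional Brunn-Minkowski inequality for `star` (also gives the contraction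
property with `r = 0` and monotonicity) -/
def A3 : Prop := ∀ (R : ℝ) (g h : ℝ → ℝ), Nice R g → Nice R h → ∀ r ε : ℝ, 0 ≤ r → 0 ≤ ε →
  (∀ s s', |s - s'| ≤ r → g s ≤ h s' + ε) → ∀ t t', |t - t'| ≤ r → star g t ≤ star h t' + ε

/-- A4: equimeasurability for Borel sets of values -/
def A4 : Prop := ∀ (R : ℝ) (g : ℝ → ℝ), Nice R g → Continuous (star g) →
  ∀ B : Set ℝ, MeasurableSet B → B ⊆ Ioi 0 → volume (star g ⁻¹' B) = volume (g ⁻¹' B)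

/-- A5: the moment of inertia decreases, with equality only for `star g = g` -/
def A5 : Prop := ∀ (R : ℝ) (g : ℝ → ℝ), Nice R g → Continuous (star g) →
  ∫ t, star g t * t ^ 2 ≤ ∫ t, g t * t ^ 2 ∧
  (∫ t, star g t * t ^ 2 = ∫ t, g t * t ^ 2 → star g = g) ∧
  ∫ t, star g t = ∫ t, g t

/-! ### The plane, identified with `ℂ` -/

/-- nonnegative `L`-Lipschitz functions on the plane vanishing outside the disc of radius `R` -/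
structure Cls (L R : ℝ) (G : ℂ → ℝ) : Prop where
  nonneg : ∀ x, 0 ≤ G x
  lip : ∀ x y, |G x - G y| ≤ L * ‖x - y‖
  supp : ∀ x, R ≤ ‖x‖ → G x = 0

/-- Steiner symmetrization of a function in the direction of the imaginary axis -/
def S0 (G : ℂ → ℝ) (x : ℂ) : ℝ := star (fun s => G ⟨x.re, s⟩) x.im

/-- Steiner symmetrization of a function in the direction `ω * I`, `|ω| = 1` -/
def Sw (ω : ℂ) (G : ℂ → ℝ) (x : ℂ) : ℝ := S0 (fun z => G (ω * z)) ((starRingEnd ℂ) ω * x)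

/-- iterated symmetrization of functions -/
def itS (ω : ℕ → ℂ) (G : ℂ → ℝ) : ℕ → ℂ → ℝ
  | 0 => G
  | i + 1 => Sw (ω i) (itS ω G i)

/-- B1: the class is preserved, sup norm contraction -/
def B1 : Prop := ∀ L R : ℝ, 0 ≤ L → 0 < R → ∀ ω : ℂ, ‖ω‖ = 1 → ∀ G, Cls L R G →
  Cls L R (Sw ω G) ∧
  (∀ H, Cls L R H → ∀ ε, 0 ≤ ε → (∀ x, G x ≤ H x + ε) → ∀ x, Sw ω G x ≤ Sw ω H x + ε) ∧
  (∀ M, (∀ x, G x ≤ M) → ∀ x, Sw ω G x ≤ M) ∧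
  (∀ z, 0 < z → volume {x | z ≤ Sw ω G x} = volume {x | z ≤ G x})

/-- B2: continuity in the direction -/
def B2 : Prop := ∀ L R : ℝ, 0 ≤ L → 0 < R → ∀ ω ω' : ℂ, ‖ω‖ = 1 → ‖ω'‖ = 1 → ∀ G, Cls L R G →
  ∀ x, |Sw ω G x - Sw ω' G x| ≤ 2 * L * R * ‖ω - ω'‖

/-- B3: the moment of inertia in the plane -/
def B3 : Prop := ∀ L R : ℝ, 0 ≤ L → 0 < R → ∀ ω : ℂ, ‖ω‖ = 1 → ∀ G, Cls L R G →
  ∫ x, Sw ω G x * ‖x‖ ^ 2 ≤ ∫ x, G x * ‖x‖ ^ 2 ∧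
  (∫ x, Sw ω G x * ‖x‖ ^ 2 = ∫ x, G x * ‖x‖ ^ 2 → Sw ω G = G)

/-- radial and nonincreasing -/
def RadDec (H : ℂ → ℝ) : Prop := ∀ x y, ‖x‖ ≤ ‖y‖ → H y ≤ H x

/-- B4: a function that is invariant under all symmetrizations is radial nonincreasing -/
def B4 : Prop := ∀ L R : ℝ, 0 ≤ L → 0 < R → ∀ H, Cls L R H →
  ((∀ ω : ℂ, ‖ω‖ = 1 → Sw ω H = H) ↔ RadDec H)

/-- B5: there is a sequence of directions whose symmetrizations converge uniformly to a radial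
nonincreasing function -/
def B5 : Prop := ∀ L R : ℝ, 0 ≤ L → 0 < R → ∀ G, Cls L R G →
  ∃ ω : ℕ → ℂ, (∀ i, ‖ω i‖ = 1) ∧ ∃ H : ℂ → ℝ, Cls L R H ∧ RadDec H ∧
    ∀ ε, 0 < ε → ∃ N, ∀ i, N ≤ i → ∀ x, |itS ω G i x - H x| ≤ ε

/-- there are compact sets of area as close to `c` as desired, on which `G` has values in `[a, b]`
and countable fibres -/
def CF (G : ℂ → ℝ) (a b c : ℝ) : Prop := ∀ c' < c, ∃ C : Set ℂ, IsCompact C ∧
  c' < (volume C).toReal ∧ (∀ x ∈ C, a ≤ G x ∧ G x ≤ b) ∧ ∀ z, (C ∩ {x | G x = z}).Countable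

/-- C1: the property `CF` is preserved -/
def C1 : Prop := ∀ L R : ℝ, 0 ≤ L → 0 < R → ∀ ω : ℂ, ‖ω‖ = 1 → ∀ G, Cls L R G →
  ∀ a b c : ℝ, 0 < a → CF G a b c → CF (Sw ω G) a b c

/-- C2: one-dimensional Sard lemma -/
def C2 : Prop := ∀ (g : ℝ → ℝ) (A : Set ℝ), (∀ t ∈ A, DifferentiableAt ℝ g t) →
  volume (g '' A) = 0 → ∀ᵐ t, t ∈ A → deriv g t = 0

/-- C3: a Lipschitz function with countable fibres on a compact set has derivative `0` almost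
everywhere on it -/
def C3 : Prop := ∀ (q : ℂ → ℝ) (K : ℝ≥0), LipschitzWith K q → ∀ C : Set ℂ, IsCompact C →
  (∀ z, (C ∩ {x | q x = z}).Countable) → ∀ᵐ x, x ∈ C → fderiv ℝ q x = 0

/-! ### The Cantor type function -/

/-- D1: the digit function `p` (binary digits read in base four) -/
def D1 : Prop := ∃ p : ℝ → ℝ, Monotone p ∧ (∀ β, 0 ≤ p β ∧ p β ≤ 1 / 3) ∧
  (∀ β, β ≤ 0 → p β = 0) ∧
  -- every dyadic cell of level k has p-oscillation at most 4^{-k}/3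
  (∀ k : ℕ, ∀ n : ℕ, n < 2 ^ k → ∀ β β', (n : ℝ) / 2 ^ k ≤ β → β < (n + 1) / 2 ^ k →
    (n : ℝ) / 2 ^ k ≤ β' → β' < (n + 1) / 2 ^ k → |p β - p β'| ≤ (1 / 3) / 4 ^ k) ∧
  -- first digits: cells [1/4,1/2) and [0,1/4)
  (∀ β, 1 / 4 ≤ β → β < 1 / 2 → 1 / 16 ≤ p β ∧ p β ≤ 1 / 12) ∧
  (∀ β, 0 ≤ β → β < 1 / 4 → p β ≤ 1 / 48) ∧
  -- tiles: to every pair of level k cells belongs an integer j, injectively, such that
  -- p β₁ + 2 p β₂ ∈ [j/4^k, (j+1)/4^k] on the pair of cells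
  (∀ k : ℕ, ∃ J : ℕ → ℕ → ℕ,
    (∀ n m n' m', n < 2 ^ k → m < 2 ^ k → n' < 2 ^ k → m' < 2 ^ k →
      J n m = J n' m' → n = n' ∧ m = m') ∧
    ∀ n m : ℕ, n < 2 ^ k → m < 2 ^ k → ∀ β₁ β₂ : ℝ,
      (n : ℝ) / 2 ^ k ≤ β₁ → β₁ < (n + 1) / 2 ^ k → (m : ℝ) / 2 ^ k ≤ β₂ → β₂ < (m + 1) / 2 ^ k →
      (J n m : ℝ) / 4 ^ k ≤ p β₁ + 2 * p β₂ ∧ p β₁ + 2 * p β₂ ≤ (J n m + 1) / 4 ^ k)

/-- the planar function built from `φ` -/
def Nf (φ : ℝ → ℝ) (x : ℂ) : ℝ := φ |x.re| + 2 * φ |x.im|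

/-- D2: the Lipschitz function `φ` and its two key properties -/
def D2 : Prop := ∃ φ : ℝ → ℝ, Monotone φ ∧ (∀ x y, |φ x - φ y| ≤ |x - y|) ∧
  (∀ y, y ≤ 0 → φ y = 0) ∧ (∀ y, y - 1 ≤ φ y) ∧
  (∃ D : ℝ, 0 ≤ D ∧ ∀ c d, 0 ≤ c → c ≤ d → d ≤ 1 / 3 →
    (volume {x : ℂ | c ≤ Nf φ x ∧ Nf φ x ≤ d}).toReal ≤ D * (d - c)) ∧
  ∃ C : Set ℂ, IsCompact C ∧ 0 < (volume C).toReal ∧
    (∀ x ∈ C, 1 / 16 ≤ Nf φ x ∧ Nf φ x ≤ 1 / 8) ∧ ∀ z, (C ∩ {x | Nf φ x = z}).Countable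

/-! ### The bodies in `ℝ^(p+2)` -/

/-- projection to the first two coordinates -/
def pr {p : ℕ} (X : En (p + 2)) : ℂ := ⟨X 0, X 1⟩

/-- square norm of the remaining coordinates -/
def ysq {p : ℕ} (X : En (p + 2)) : ℝ := ∑ j : Fin p, X j.succ.succ ^ 2

/-- inclusion of the plane -/
def io {p : ℕ} (d : ℂ) : En (p + 2) :=
  WithLp.toLp 2 (Fin.cons d.re (Fin.cons d.im (fun _ => 0)))

/-- the Steiner symmetral of a set in the direction of the unit vector `u` -/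
def steiner {n : ℕ} (u : En n) (E : Set (En n)) : Set (En n) :=
  {x | (∃ s : ℝ, x + s • u ∈ E) ∧ 2 * |⟪x, u⟫| ≤ (volume {s : ℝ | x + s • u ∈ E}).toReal}

/-- the body with profile `m` over the function `G` -/
def Body (p : ℕ) (m : ℝ → ℝ) (z₁ : ℝ) (G : ℂ → ℝ) : Set (En (p + 2)) :=
  {X | z₁ ≤ G (pr X) ∧ m (G (pr X)) + Real.pi * ysq X ≤ m z₁}

/-- the profile: `m` is continuous, strictly decreasing on `[z₁, M]`, `m M = 0`; Lipschitz -/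
structure Prof (m : ℝ → ℝ) (z₁ M Lm : ℝ) : Prop where
  pos : 0 < z₁
  lt : z₁ < M
  anti : StrictAntiOn m (Icc z₁ M)
  zero : m M = 0
  lip : ∀ x ∈ Icc z₁ M, ∀ y ∈ Icc z₁ M, |m x - m y| ≤ Lm * |x - y|

/-- E1: horizontal Steiner symmetrization of the bodies -/
def E1 : Prop := ∀ (p : ℕ) (L R : ℝ), 0 ≤ L → 0 < R → ∀ (m : ℝ → ℝ) (z₁ M Lm : ℝ),
  Prof m z₁ M Lm → ∀ G, Cls L R G → (∀ x, G x ≤ M) → ∀ ω : ℂ, ‖ω‖ = 1 →
  steiner (io (ω * Complex.I)) (Body p m z₁ G) = Body p m z₁ (Sw ω G)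

/-- E2: the area of the fibres: integration over a body of a function of `pr X` -/
def E2 : Prop := ∀ (p : ℕ) (L R : ℝ), 0 ≤ L → 0 < R → ∀ (m : ℝ → ℝ) (z₁ M Lm : ℝ),
  Prof m z₁ M Lm → ∀ G, Cls L R G → (∀ x, G x ≤ M) → ∀ ψ : ℂ → ℝ, Continuous ψ →
  ∫ X in Body p m z₁ G, ψ (pr X) = ∫ x in {x | z₁ ≤ G x},
    ψ x * ((volume (closedBall (0 : En p) 1)).toReal *
      (Real.sqrt ((m z₁ - m (G x)) / Real.pi)) ^ p)

/-- E3: the volume of the bodies -/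
def E3 : Prop := ∀ (p : ℕ) (L R : ℝ), 0 ≤ L → 0 < R → ∀ (m : ℝ → ℝ) (z₁ M Lm : ℝ),
  Prof m z₁ M Lm → ∀ G, Cls L R G → (∀ x, G x ≤ M) →
  (∀ z ∈ Icc z₁ M, volume {x | z ≤ G x} = ENNReal.ofReal (m z)) →
  IsCompact (Body p m z₁ G) ∧
  volume (Body p m z₁ G) = volume (closedBall (0 : En (p + 2)) (Real.sqrt (m z₁ / Real.pi)))

/-- E4: Hausdorff convergence of the bodies to the ball -/
def E4 : Prop := ∀ (p : ℕ) (L R : ℝ), 0 ≤ L → 0 < R → ∀ (m : ℝ → ℝ) (z₁ M Lm : ℝ),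
  Prof m z₁ M Lm → ∀ G : ℕ → ℂ → ℝ, (∀ i, Cls L R (G i)) → (∀ i x, G i x ≤ M) →
  (∀ i, ∀ z ∈ Icc z₁ M, volume {x | z ≤ G i x} = ENNReal.ofReal (m z)) →
  ∀ H : ℂ → ℝ, Cls L R H → RadDec H →
  (∀ ε, 0 < ε → ∃ N, ∀ i, N ≤ i → ∀ x, |G i x - H x| ≤ ε) →
  Tendsto (fun i => hausdorffDist (Body p m z₁ (G i))
    (closedBall (0 : En (p + 2)) (Real.sqrt (m z₁ / Real.pi)))) atTop (𝓝 0)

/-- F1: lower bound for the perimeter of a bounded set that is "flat" over `C` -/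
def F1 : Prop := ∀ (p : ℕ), 1 ≤ p → ∀ (E : Set (En (p + 2))) (R₁ R' ρ' ρ : ℝ),
  MeasurableSet E → 0 < R₁ → R₁ < R' → 0 < ρ' → ρ' < ρ → E ⊆ closedBall 0 R₁ →
  ∀ (h q : ℂ → ℝ) (K : ℝ≥0), Integrable h →
  (∀ ψ : ℂ → ℝ, Continuous ψ → ∫ X in E, ψ (pr X) = ∫ x, ψ x * h x) →
  ∀ (C U : Set ℂ), IsCompact C → IsOpen U → C ⊆ U → LipschitzWith K q → (∀ x ∈ U, h x = q x) →
  (∀ᵐ x, x ∈ C → fderiv ℝ q x = 0) → (∀ X ∈ E, pr X ∈ U → ysq X ≤ ρ' ^ 2) →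
  ENNReal.ofReal ((p + 2) / R' * (volume E).toReal + p * (1 / ρ - 1 / R') * ∫ x in C, h x)
    ≤ perimeter E

/-- F2: sets with connected coordinate sections have finite perimeter -/
def F2 : Prop := ∀ (n : ℕ) (E : Set (En n)), IsCompact E →
  (∀ (X : En n) (k : Fin n), OrdConnected {s : ℝ | X + s • EuclideanSpace.single k (1 : ℝ) ∈ E}) →
  perimeter E < ⊤

end Pool.Agent.R748.ST
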